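import Pool.Agent.D0H15.MW.Inv
import Pool.Agent.D0H44.MW.Stm

/-! Package P4 of the project MW: a cut-off and its effect on the Mellin transform. -/

set_option autoImplicit false
open Complex Filter Topology MeasureTheory Set FourierTransform
open Pool.Agent.D0H44.MW

namespace Pool.Agent.D0H15.MW

/-- `max (D + c + log x) 0 - max (D + log x) 0`, divided by `c` -/
noncomputable def rho (c D x : ℝ) : ℝ := (max (D + c + Real.log x) 0 - max (D + Real.log x) 0) / c

/-- the kernel -/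
noncomputable def kr (κ c D y : ℝ) : ℂ :=
  ((1 / (2 * Real.pi * c) : ℝ) : ℂ) * ((cexp (((κ : ℂ) + (y : ℂ) * I) * ((D + c : ℝ) : ℂ)) -
    cexp (((κ : ℂ) + (y : ℂ) * I) * (D : ℂ))) * (1 / ((κ : ℂ) + (y : ℂ) * I) ^ 2))

theorem rho_mem {c : ℝ} (hc : 0 < c) (D x : ℝ) : 0 ≤ rho c D x ∧ rho c D x ≤ 1 := by
  unfold rho
  constructor
  · apply div_nonneg _ hc.le
    rw [sub_nonneg]
    exact max_le_max (by linarith) le_rfl
  · rw [div_le_one hc, sub_le_iff_le_add]
    apply max_le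
    · have := le_max_left (D + Real.log x) 0
      linarith
    · have := le_max_right (D + Real.log x) 0
      linarith

theorem rho_cont (c D : ℝ) : ContinuousOn (rho c D) (Ioi 0) := by
  have h : ContinuousOn Real.log (Ioi 0) :=
    Real.continuousOn_log.mono fun x hx => ne_of_gt (by exact hx)
  have h2 : Continuous (fun l : ℝ => (max (D + c + l) 0 - max (D + l) 0) / c) := by fun_prop
  exact h2.comp_continuousOn h

theorem rho_zero {c : ℝ} (hc : 0 < c) (D x : ℝ) (hx : 0 < x) (h : x ≤ Real.exp (-(D + c))) :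
    rho c D x = 0 := by
  have h1 : Real.log x ≤ -(D + c) := by
    rw [← Real.log_exp (-(D + c))]
    exact Real.log_le_log hx h
  unfold rho
  rw [max_eq_right (by linarith), max_eq_right (by linarith), sub_zero, zero_div]

theorem rho_one {c : ℝ} (hc : 0 < c) (D x : ℝ) (h : Real.exp (-D) ≤ x) : rho c D x = 1 := by
  have h1 : -D ≤ Real.log x := by
    rw [← Real.log_exp (-D)]
    exact Real.log_le_log (Real.exp_pos _) h
  unfold rho
  rw [max_eq_left (by linarith), max_eq_left (by linarith)]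
  field_simp
  ring

theorem kr_cont {κ : ℝ} (hκ : 0 < κ) (c D : ℝ) : Continuous (kr κ c D) := by
  unfold kr
  exact continuous_const.mul (Continuous.mul (by fun_prop) (den_cont hκ))

theorem kr_norm {κ c D : ℝ} (hκ : 0 < κ) (hc : 0 < c) (y : ℝ) :
    ‖kr κ c D y‖ ≤ Real.exp (κ * (D + c)) / (Real.pi * c) * (1 / (κ ^ 2 + y ^ 2)) := by
  have hpi := Real.pi_pos
  unfold kr
  rw [norm_mul, norm_mul, den_norm, Complex.norm_real, Real.norm_of_nonneg (by positivity)]
  have h1 : ‖cexp (((κ : ℂ) + (y : ℂ) * I) * ((D + c : ℝ) : ℂ))‖ = Real.exp (κ * (D + c)) := by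
    rw [Complex.norm_exp]
    congr 1
    rw [re_mul_ofReal]
    simp
  have h2 : ‖cexp (((κ : ℂ) + (y : ℂ) * I) * (D : ℂ))‖ ≤ Real.exp (κ * (D + c)) := by
    rw [Complex.norm_exp]
    apply Real.exp_le_exp.mpr
    rw [re_mul_ofReal]
    simp only [add_re, ofReal_re, mul_re, I_re, mul_zero, ofReal_im, I_im, mul_one, sub_self, add_zero]
    nlinarith
  have h3 := norm_sub_le (cexp (((κ : ℂ) + (y : ℂ) * I) * ((D + c : ℝ) : ℂ)))
    (cexp (((κ : ℂ) + (y : ℂ) * I) * (D : ℂ)))
  rw [h1] at h3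
  have h4 := h3.trans (add_le_add le_rfl h2)
  calc _ ≤ 1 / (2 * Real.pi * c) * ((Real.exp (κ * (D + c)) + Real.exp (κ * (D + c))) *
        (1 / (κ ^ 2 + y ^ 2))) := by gcongr
    _ = _ := by
      field_simp
      ring

theorem kr_int {κ c D : ℝ} (hκ : 0 < κ) (hc : 0 < c) : Integrable (kr κ c D) := by
  refine Integrable.mono' ((poi_int hκ).1.const_mul (Real.exp (κ * (D + c)) / (Real.pi * c)))
    (kr_cont hκ c D).aestronglyMeasurable ?_
  filter_upwards with y
  exact kr_norm hκ hc y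

theorem phi_eq {κ c D : ℝ} (hκ : 0 < κ) (hc : 0 < c) (v : ℝ) :
    (((Real.exp (κ * v) * rho c D (Real.exp (-v))) : ℝ) : ℂ) =
      ∫ y : ℝ, kr κ c D y * cexp (-((y * v : ℝ) : ℂ) * I) := by
  have hpi := Real.pi_pos
  have i1 : ∀ a : ℝ, Integrable (fun y : ℝ => cexp (((y * (a - v) : ℝ) : ℂ) * I) *
      (1 / ((κ : ℂ) + (y : ℂ) * I) ^ 2)) := by
    intro a
    refine (den_int hκ).bdd_mul (c := 1) (by fun_prop) ?_
    filter_upwards with y
    rw [Complex.norm_exp_ofReal_mul_I]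
  have e1 : ∀ y : ℝ, kr κ c D y * cexp (-((y * v : ℝ) : ℂ) * I) =
      ((1 / (2 * Real.pi * c) : ℝ) : ℂ) *
      (((Real.exp (κ * (D + c)) : ℝ) : ℂ) * (cexp (((y * ((D + c) - v) : ℝ) : ℂ) * I) *
        (1 / ((κ : ℂ) + (y : ℂ) * I) ^ 2)) -
       ((Real.exp (κ * D) : ℝ) : ℂ) * (cexp (((y * (D - v) : ℝ) : ℂ) * I) *
        (1 / ((κ : ℂ) + (y : ℂ) * I) ^ 2))) := by
    intro y
    unfold kr
    have a1 : cexp (((κ : ℂ) + (y : ℂ) * I) * ((D + c : ℝ) : ℂ)) * cexp (-((y * v : ℝ) : ℂ) * I) =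
        ((Real.exp (κ * (D + c)) : ℝ) : ℂ) * cexp (((y * ((D + c) - v) : ℝ) : ℂ) * I) := by
      push_cast
      rw [← Complex.exp_add, ← Complex.exp_add]
      congr 1
      ring
    have a2 : cexp (((κ : ℂ) + (y : ℂ) * I) * (D : ℂ)) * cexp (-((y * v : ℝ) : ℂ) * I) =
        ((Real.exp (κ * D) : ℝ) : ℂ) * cexp (((y * (D - v) : ℝ) : ℂ) * I) := by
      push_cast
      rw [← Complex.exp_add, ← Complex.exp_add]
      congr 1
      ring
    rw [← mul_assoc (((Real.exp (κ * (D + c)) : ℝ) : ℂ)), ← mul_assoc (((Real.exp (κ * D) : ℝ) : ℂ)),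
      ← a1, ← a2]
    ring
  simp_rw [e1]
  rw [integral_const_mul, integral_sub ((i1 _).const_mul _) ((i1 _).const_mul _),
    integral_const_mul, integral_const_mul, inv2 hκ, inv2 hκ]
  unfold rho rp
  rw [Real.log_exp]
  have b1 : Real.exp (κ * (D + c)) * Real.exp (-κ * (D + c - v)) = Real.exp (κ * v) := by
    rw [← Real.exp_add]
    congr 1; ring
  have b2 : Real.exp (κ * D) * Real.exp (-κ * (D - v)) = Real.exp (κ * v) := by
    rw [← Real.exp_add]
    congr 1; ring
  rw [← ofReal_mul, ← ofReal_mul, ← ofReal_sub, ← ofReal_mul]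
  congr 1
  have b3 : Real.exp (κ * (D + c)) * (2 * Real.pi * (max (D + c - v) 0 * Real.exp (-κ * (D + c - v)))) =
      2 * Real.pi * max (D + c - v) 0 * Real.exp (κ * v) := by
    rw [← b1]; ring
  have b4 : Real.exp (κ * D) * (2 * Real.pi * (max (D - v) 0 * Real.exp (-κ * (D - v)))) =
      2 * Real.pi * max (D - v) 0 * Real.exp (κ * v) := by
    rw [← b2]; ring
  rw [b3, b4, ← sub_eq_add_neg, ← sub_eq_add_neg]
  field_simp

theorem mell_int (F : ℝ → ℂ) (σ t : ℝ) :
    mellin F ((σ : ℂ) + (t : ℂ) * I) = ∫ v : ℝ, cexp (-((t * v : ℝ) : ℂ) * I) * gg F σ v := by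
  rw [mell_eq, Real.fourier_eq']
  apply integral_congr_ae
  filter_upwards with v
  rw [smul_eq_mul]
  congr 2
  simp only [RCLike.inner_apply, conj_trivial]
  have hpi : (Real.pi : ℂ) ≠ 0 := by exact_mod_cast Real.pi_ne_zero
  push_cast
  field_simp

theorem mc_rho {H : ℝ → ℂ} (hH : MC H (1 / 2)) {κ c D : ℝ} (hκ : 0 < κ) (hc : 0 < c) :
    MC (fun x => ((rho c D x : ℝ) : ℂ) * H x) (1 / 2 - κ) := by
  obtain ⟨C, m, hm, h1, h2⟩ := hH.bd
  have hC : 0 ≤ C := by
    have := h1 1 one_pos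
    rw [Real.one_rpow, mul_one] at this
    exact (norm_nonneg _).trans this
  refine ⟨?_, ?_⟩
  · exact (continuous_ofReal.comp_continuousOn (rho_cont c D)).mul hH.cont
  · set x0 : ℝ := Real.exp (-(D + c)) with hx0
    have hx0p : 0 < x0 := Real.exp_pos _
    have key : ∀ x : ℝ, 0 < x → ∀ e : ℝ, 0 ≤ e → ‖((rho c D x : ℝ) : ℂ) * H x‖ ≤
        C * x0 ^ (-e) * x ^ (-(1 / 2) - m + e) := by
      intro x hx e he
      rw [norm_mul, Complex.norm_real, Real.norm_of_nonneg (rho_mem hc D x).1]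
      rcases le_or_gt x x0 with hxx | hxx
      · rw [rho_zero hc D x hx hxx, zero_mul]
        positivity
      · have a1 : ‖H x‖ ≤ C * x ^ (-(1 / 2) - m) := h2 x hx
        have a2 : 1 ≤ x0 ^ (-e) * x ^ e := by
          rw [Real.rpow_neg hx0p.le, inv_mul_eq_div, one_le_div (by positivity)]
          exact Real.rpow_le_rpow hx0p.le hxx.le he
        calc rho c D x * ‖H x‖ ≤ 1 * ‖H x‖ := by
              gcongr
              exact (rho_mem hc D x).2
          _ ≤ C * x ^ (-(1 / 2) - m) * 1 := by rw [one_mul, mul_one]; exact a1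
          _ ≤ C * x ^ (-(1 / 2) - m) * (x0 ^ (-e) * x ^ e) := by gcongr
          _ = _ := by
            rw [Real.rpow_add hx]
            ring
    refine ⟨C * x0 ^ (-κ) + C * x0 ^ (-(2 * m + κ)), m, hm, fun x hx => ?_, fun x hx => ?_⟩
    · refine (key x hx (2 * m + κ) (by positivity)).trans ?_
      have e1 : -(1 / 2 : ℝ) - m + (2 * m + κ) = -(1 / 2 - κ) + m := by ring
      rw [e1]
      have : 0 ≤ C * x0 ^ (-κ) := by positivity
      gcongr
      linarith
    · refine (key x hx κ hκ.le).trans ?_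
      have e1 : -(1 / 2 : ℝ) - m + κ = -(1 / 2 - κ) - m := by ring
      rw [e1]
      have : 0 ≤ C * x0 ^ (-(2 * m + κ)) := by positivity
      gcongr
      linarith

theorem mell_rho {H : ℝ → ℂ} (hH : MC H (1 / 2)) {κ c D : ℝ} (hκ : 0 < κ) (hc : 0 < c) (t : ℝ) :
    mellin (fun x => ((rho c D x : ℝ) : ℂ) * H x) (((1 / 2 - κ : ℝ) : ℂ) + (t : ℂ) * I) =
      ∫ y : ℝ, kr κ c D y * mellin H (((1 / 2 : ℝ) : ℂ) + ((t + y : ℝ) : ℂ) * I) := by
  rw [mell_int]
  simp_rw [mell_int H (1 / 2)]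
  have e1 : ∀ v : ℝ, cexp (-((t * v : ℝ) : ℂ) * I) * gg (fun x => ((rho c D x : ℝ) : ℂ) * H x) (1 / 2 - κ) v =
      ∫ y : ℝ, kr κ c D y * (cexp (-(((t + y) * v : ℝ) : ℂ) * I) * gg H (1 / 2) v) := by
    intro v
    have a1 : gg (fun x => ((rho c D x : ℝ) : ℂ) * H x) (1 / 2 - κ) v =
        (((Real.exp (κ * v) * rho c D (Real.exp (-v))) : ℝ) : ℂ) * gg H (1 / 2) v := by
      unfold gg
      have : Real.exp (-(1 / 2 - κ) * v) = Real.exp (κ * v) * Real.exp (-(1 / 2) * v) := by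
        rw [← Real.exp_add]
        congr 1; ring
      rw [this]
      push_cast
      ring
    rw [a1, phi_eq hκ hc, ← integral_mul_const, ← integral_const_mul]
    apply integral_congr_ae
    filter_upwards with y
    have a2 : cexp (-(((t + y) * v : ℝ) : ℂ) * I) =
        cexp (-((t * v : ℝ) : ℂ) * I) * cexp (-((y * v : ℝ) : ℂ) * I) := by
      rw [← Complex.exp_add]
      congr 1
      push_cast
      ring
    rw [a2]
    ring
  simp_rw [e1]
  rw [integral_integral_swap]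
  · apply integral_congr_ae
    filter_upwards with y
    rw [integral_const_mul]
  · have h := (gg_int hH).mul_prod (kr_int (D := D) hκ hc)
    refine Integrable.mono h ?_ ?_
    · apply Continuous.aestronglyMeasurable
      have h1 := kr_cont hκ c D
      have h2 := gg_cont hH
      unfold Function.uncurry
      fun_prop
    · filter_upwards with p
      unfold Function.uncurry
      rw [norm_mul, norm_mul, norm_mul]
      have : ‖cexp (-(((t + p.2) * p.1 : ℝ) : ℂ) * I)‖ = 1 := by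
        rw [← ofReal_neg, Complex.norm_exp_ofReal_mul_I]
      rw [this, one_mul, mul_comm]

theorem poi_conv {κ : ℝ} (hκ : 0 < κ) (hκ1 : κ ≤ 1) (u : ℝ) :
    Integrable (fun t : ℝ => 1 / (κ ^ 2 + (u - t) ^ 2) * (1 / (1 + t ^ 2))) ∧
    ∫ t : ℝ, 1 / (κ ^ 2 + (u - t) ^ 2) * (1 / (1 + t ^ 2)) ≤ 4 * Real.pi / κ * (1 / (1 + u ^ 2)) := by
  have hpi := Real.pi_pos
  have hp : ∀ t : ℝ, 1 / (κ ^ 2 + (u - t) ^ 2) * (1 / (1 + t ^ 2)) ≤
      (1 / (1 + u ^ 2)) * (2 * (1 / (κ ^ 2 + (u - t) ^ 2)) + 2 * (1 / (1 ^ 2 + t ^ 2))) := by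
    intro t
    have h1 : 0 < κ ^ 2 + (u - t) ^ 2 := by positivity
    have h2 : 0 < 1 + t ^ 2 := by positivity
    have h3 : 0 < 1 + u ^ 2 := by positivity
    rw [one_pow]
    have e : (1 / (1 + u ^ 2)) * (2 * (1 / (κ ^ 2 + (u - t) ^ 2)) + 2 * (1 / (1 + t ^ 2))) =
        (1 / (κ ^ 2 + (u - t) ^ 2) * (1 / (1 + t ^ 2))) *
          ((2 * (1 + t ^ 2) + 2 * (κ ^ 2 + (u - t) ^ 2)) / (1 + u ^ 2)) := by
      field_simp
    rw [e]
    apply le_mul_of_one_le_right (by positivity)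
    rw [one_le_div h3]
    nlinarith [sq_nonneg (u - 2 * t), sq_nonneg κ]
  have i1 : Integrable (fun t : ℝ => 1 / (κ ^ 2 + (u - t) ^ 2)) :=
    (poi_int hκ).1.comp_sub_left u
  have i2 : Integrable (fun t : ℝ => 1 / ((1:ℝ) ^ 2 + t ^ 2)) := (poi_int one_pos).1
  have i3 := ((i1.const_mul 2).add (i2.const_mul 2)).const_mul (1 / (1 + u ^ 2))
  have i4 : Integrable (fun t : ℝ => 1 / (κ ^ 2 + (u - t) ^ 2) * (1 / (1 + t ^ 2))) := by
    refine Integrable.mono' i3 ?_ ?_
    · apply Continuous.aestronglyMeasurable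
      refine Continuous.mul (continuous_const.div (by fun_prop) fun t => ?_)
        (continuous_const.div (by fun_prop) fun t => ?_)
      · positivity
      · positivity
    · filter_upwards with t
      rw [Real.norm_of_nonneg (by positivity)]
      exact hp t
  refine ⟨i4, ?_⟩
  refine (integral_mono i4 i3 hp).trans ?_
  have e1 : ∫ t : ℝ, 1 / (κ ^ 2 + (u - t) ^ 2) = Real.pi / κ := by
    rw [integral_sub_left_eq_self (fun y : ℝ => 1 / (κ ^ 2 + y ^ 2)) volume u]
    exact (poi_int hκ).2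
  have e2 : ∫ t : ℝ, 1 / ((1:ℝ) ^ 2 + t ^ 2) = Real.pi / 1 := (poi_int one_pos).2
  have e3 : ∫ t : ℝ, (1 / (1 + u ^ 2)) * (2 * (1 / (κ ^ 2 + (u - t) ^ 2)) + 2 * (1 / (1 ^ 2 + t ^ 2))) =
      (1 / (1 + u ^ 2)) * (2 * (Real.pi / κ) + 2 * (Real.pi / 1)) := by
    rw [integral_const_mul, integral_add (i1.const_mul 2) (i2.const_mul 2), integral_const_mul,
      integral_const_mul, e1, e2]
  refine (le_of_eq e3).trans ?_
  rw [mul_comm]
  gcongr
  rw [div_one]
  have : Real.pi ≤ Real.pi / κ := by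
    rw [le_div_iff₀ hκ]
    nlinarith
  have e4 : 4 * Real.pi / κ = 4 * (Real.pi / κ) := by ring
  rw [e4]
  linarith

theorem cut : S_CUT := by
  refine ⟨4, by norm_num, ?_⟩
  intro κ c D hκ hκ8 hc1 hD
  have hc : 0 < c := by linarith
  have hpi := Real.pi_pos
  refine ⟨rho c D, rho_cont c D, fun x => rho_mem hc D x, fun x hx h => rho_zero hc D x hx h,
    fun x h => rho_one hc D x h, ?_⟩
  intro H hH
  refine ⟨mc_rho hH hκ hc, ?_⟩
  set M : ℝ → ℂ := fun u => mellin H (((1 / 2 : ℝ) : ℂ) + (u : ℂ) * I) with hM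
  have hMc : Continuous M := mell_cont hH
  set B : ℝ := ∫ v, ‖gg H (1 / 2) v‖ with hB
  have hMb : ∀ u, ‖M u‖ ≤ B := by
    intro u
    rw [hM]
    simp only
    rw [mell_int]
    refine (norm_integral_le_integral_norm _).trans (le_of_eq ?_)
    apply integral_congr_ae
    filter_upwards with v
    rw [norm_mul, ← ofReal_neg, Complex.norm_exp_ofReal_mul_I, one_mul]
  set E : ℝ := Real.exp (κ * (D + c)) with hE
  have hkc := kr_cont hκ c D
  have hki := kr_int (D := D) hκ hc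
  -- the integrand on the product
  have hK : Integrable (fun p : ℝ × ℝ => ‖kr κ c D (p.1 - p.2)‖ * ‖M p.1‖ * (1 / (1 + p.2 ^ 2))) := by
    have h0 : Integrable (fun t : ℝ => 1 / (1 + t ^ 2)) := by
      have := (poi_int one_pos).1
      simpa using this
    have h := Integrable.convolution_integrand (ContinuousLinearMap.mul ℝ ℝ) h0 hki.norm
      (μ := volume) (ν := volume)
    refine Integrable.mono' (h.const_mul B) ?_ ?_
    · apply Continuous.aestronglyMeasurable
      refine Continuous.mul (by fun_prop) (continuous_const.div (by fun_prop) fun p => ?_)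
      positivity
    · filter_upwards with p
      rw [Real.norm_of_nonneg (by positivity)]
      simp only [ContinuousLinearMap.mul_apply']
      have : ‖kr κ c D (p.1 - p.2)‖ * ‖M p.1‖ * (1 / (1 + p.2 ^ 2)) ≤
          ‖kr κ c D (p.1 - p.2)‖ * B * (1 / (1 + p.2 ^ 2)) := by
        gcongr
        exact hMb _
      refine this.trans (le_of_eq ?_)
      ring
  have hpt : ∀ t : ℝ, ‖mellin (fun x => ((rho c D x : ℝ) : ℂ) * H x)
      (((1 / 2 - κ : ℝ) : ℂ) + (t : ℂ) * I)‖ / (1 + t ^ 2) ≤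
      ∫ u : ℝ, ‖kr κ c D (u - t)‖ * ‖M u‖ * (1 / (1 + t ^ 2)) := by
    intro t
    rw [mell_rho hH hκ hc, integral_mul_const, div_eq_mul_one_div]
    apply mul_le_mul_of_nonneg_right _ (by positivity)
    refine (norm_integral_le_integral_norm _).trans (le_of_eq ?_)
    have := integral_add_right_eq_self (μ := volume) (fun u : ℝ => ‖kr κ c D (u - t)‖ * ‖M u‖) t
    rw [← this]
    apply integral_congr_ae
    filter_upwards with y
    rw [norm_mul, add_sub_cancel_right, add_comm y t]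
  have hsw : Integrable (Function.uncurry (fun t u : ℝ => ‖kr κ c D (u - t)‖ * ‖M u‖ * (1 / (1 + t ^ 2))))
      (volume.prod volume) := hK.swap
  have hLi : Integrable (fun t : ℝ => ∫ u : ℝ, ‖kr κ c D (u - t)‖ * ‖M u‖ * (1 / (1 + t ^ 2))) :=
    hsw.integral_prod_left
  have hmc := mell_cont (mc_rho hH hκ hc (D := D))
  have hLm : Integrable (fun t : ℝ => ‖mellin (fun x => ((rho c D x : ℝ) : ℂ) * H x)
      (((1 / 2 - κ : ℝ) : ℂ) + (t : ℂ) * I)‖ / (1 + t ^ 2)) := by
    refine Integrable.mono' hLi ?_ ?_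
    · apply Continuous.aestronglyMeasurable
      refine Continuous.div hmc.norm (by fun_prop) fun t => ?_
      positivity
    · filter_upwards with t
      rw [Real.norm_of_nonneg (by positivity)]
      exact hpt t
  refine (integral_mono hLm hLi hpt).trans ?_
  rw [integral_integral_swap hsw, ← integral_const_mul]
  have hRi : Integrable (fun u : ℝ => 4 * (E / (c * κ)) * (‖M u‖ / (1 + u ^ 2))) := by
    apply Integrable.const_mul
    have h0 : Integrable (fun t : ℝ => 1 / ((1:ℝ) ^ 2 + t ^ 2)) := (poi_int one_pos).1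
    refine Integrable.mono' (h0.const_mul B) ?_ ?_
    · apply Continuous.aestronglyMeasurable
      refine Continuous.div hMc.norm (by fun_prop) fun t => ?_
      positivity
    · filter_upwards with u
      rw [Real.norm_of_nonneg (by positivity), one_pow, div_eq_mul_one_div]
      gcongr
      exact hMb u
  refine integral_mono hK.integral_prod_left hRi ?_
  intro u
  have h1 := poi_conv hκ (by linarith) u
  have e1 : ∀ t : ℝ, ‖kr κ c D (u - t)‖ * ‖M u‖ * (1 / (1 + t ^ 2)) ≤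
      (E / (Real.pi * c) * ‖M u‖) * (1 / (κ ^ 2 + (u - t) ^ 2) * (1 / (1 + t ^ 2))) := by
    intro t
    have := kr_norm (D := D) hκ hc (u - t)
    calc _ ≤ (E / (Real.pi * c) * (1 / (κ ^ 2 + (u - t) ^ 2))) * ‖M u‖ * (1 / (1 + t ^ 2)) := by
          gcongr
      _ = _ := by ring
  have i5 : Integrable (fun t : ℝ => ‖kr κ c D (u - t)‖ * ‖M u‖ * (1 / (1 + t ^ 2))) := by
    refine Integrable.mono' (h1.1.const_mul (E / (Real.pi * c) * ‖M u‖)) ?_ ?_
    · apply Continuous.aestronglyMeasurable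
      refine Continuous.mul (by fun_prop) (continuous_const.div (by fun_prop) fun p => ?_)
      positivity
    · filter_upwards with t
      rw [Real.norm_of_nonneg (by positivity)]
      exact e1 t
  have h2 := integral_mono i5 (h1.1.const_mul (E / (Real.pi * c) * ‖M u‖)) e1
  refine h2.trans ?_
  rw [integral_const_mul]
  calc E / (Real.pi * c) * ‖M u‖ * ∫ t : ℝ, 1 / (κ ^ 2 + (u - t) ^ 2) * (1 / (1 + t ^ 2))
      ≤ E / (Real.pi * c) * ‖M u‖ * (4 * Real.pi / κ * (1 / (1 + u ^ 2))) := by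
        gcongr
        exact h1.2
    _ = _ := by
      rw [hM]
      field_simp

end Pool.Agent.D0H15.MW
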