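import Pool.Agent.D0H44.MW.Ml

/-! The inversion formula `∫ e^{iyw} (κ + iy)⁻² dy = 2π max(w, 0) e^{-κ w}`. -/

set_option autoImplicit false
open Complex Filter Topology MeasureTheory Set FourierTransform

namespace Pool.Agent.D0H15.MW

/-- `max(w, 0) e^{-κ w}` -/
noncomputable def rp (κ w : ℝ) : ℝ := max w 0 * Real.exp (-κ * w)

theorem rp_nonneg (κ w : ℝ) : 0 ≤ rp κ w := by
  unfold rp
  positivity

theorem rp_cont (κ : ℝ) : Continuous (rp κ) := by
  unfold rp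
  fun_prop

theorem rp_le {κ : ℝ} (hκ : 0 < κ) (w : ℝ) : rp κ w ≤ 2 / κ * Real.exp (-(κ / 2) * |w|) := by
  unfold rp
  rcases le_or_gt w 0 with hw | hw
  · rw [max_eq_right hw, zero_mul]
    positivity
  · rw [max_eq_left hw.le, abs_of_pos hw]
    have h1 : κ * w / 2 ≤ Real.exp (κ * w / 2) := by
      have := Real.add_one_le_exp (κ * w / 2)
      linarith
    have h2 : Real.exp (-κ * w) = Real.exp (-(κ / 2) * w) * Real.exp (-(κ * w / 2)) := by
      rw [← Real.exp_add]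
      congr 1; ring
    rw [h2, mul_comm (Real.exp _), ← mul_assoc]
    apply mul_le_mul_of_nonneg_right _ (Real.exp_pos _).le
    rw [Real.exp_neg, ← div_eq_mul_inv, div_le_iff₀ (Real.exp_pos _)]
    have h3 : w = 2 / κ * (κ * w / 2) := by field_simp
    calc w = 2 / κ * (κ * w / 2) := h3
      _ ≤ 2 / κ * Real.exp (κ * w / 2) := by gcongr

theorem rp_int {κ : ℝ} (hκ : 0 < κ) : Integrable (fun w => ((rp κ w : ℝ) : ℂ)) := by
  have h : 0 < κ / 2 := by positivity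
  refine Integrable.mono' ((Pool.Agent.D0H44.MW.exp_abs_int h).const_mul (2 / κ))
    (by have := rp_cont κ; fun_prop) ?_
  filter_upwards with w
  rw [Complex.norm_real, Real.norm_of_nonneg (rp_nonneg κ w)]
  exact rp_le hκ w

theorem lap {κ : ℝ} (hκ : 0 < κ) (t : ℝ) :
    ∫ w : ℝ, cexp (-((t * w : ℝ) : ℂ) * I) * ((rp κ w : ℝ) : ℂ) = 1 / ((κ : ℂ) + t * I) ^ 2 := by
  set z : ℂ := (κ : ℂ) + t * I with hz
  have hzre : z.re = κ := by simp [hz]
  have hz0 : z ≠ 0 := by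
    intro h
    rw [h] at hzre
    simp at hzre
    linarith
  have e1 : (fun w : ℝ => cexp (-((t * w : ℝ) : ℂ) * I) * ((rp κ w : ℝ) : ℂ)) =
      Set.indicator (Ioi 0) (fun w : ℝ => (w : ℂ) * cexp (-z * w)) := by
    funext w
    by_cases hw : 0 < w
    · rw [indicator_of_mem (by exact hw)]
      unfold rp
      rw [max_eq_left hw.le]
      push_cast
      rw [mul_comm, mul_assoc, ← Complex.exp_add]
      congr 2
      rw [hz]
      ring
    · rw [indicator_of_notMem (by exact hw)]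
      unfold rp
      rw [max_eq_right (not_lt.mp hw)]
      simp
  rw [e1, integral_indicator measurableSet_Ioi]
  have hint : IntegrableOn (fun w : ℝ => (w : ℂ) * cexp (-z * w)) (Ioi 0) := by
    rw [← integrable_indicator_iff measurableSet_Ioi, ← e1]
    refine (rp_int hκ).bdd_mul (c := 1) (by fun_prop) ?_
    filter_upwards with w
    rw [Complex.norm_exp]
    simp
  have hderiv : ∀ w ∈ Ici (0:ℝ), HasDerivAt (fun w : ℝ => -((w : ℂ) / z + 1 / z ^ 2) * cexp (-z * w))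
      ((w : ℂ) * cexp (-z * w)) w := by
    intro w _
    have h1 : HasDerivAt (fun w : ℝ => (w : ℂ)) 1 w := Complex.ofRealCLM.hasDerivAt
    have h2 : HasDerivAt (fun w : ℝ => -((w : ℂ) / z + 1 / z ^ 2)) (-(1 / z)) w := by
      exact ((h1.div_const z).add_const (1 / z ^ 2)).neg
    have h3 : HasDerivAt (fun w : ℝ => cexp (-z * w)) (cexp (-z * w) * (-z * 1)) w :=
      (h1.const_mul (-z)).cexp
    convert! h2.mul h3 using 1
    field_simp
    ring
  have hlim : Tendsto (fun w : ℝ => -((w : ℂ) / z + 1 / z ^ 2) * cexp (-z * w)) atTop (𝓝 0) := by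
    rw [tendsto_zero_iff_norm_tendsto_zero]
    have hb : ∀ᶠ w : ℝ in atTop, ‖-((w : ℂ) / z + 1 / z ^ 2) * cexp (-z * w)‖ ≤
        (1 / ‖z‖) * (w ^ (1:ℝ) * Real.exp (-κ * w)) + (1 / ‖z‖ ^ 2) * (w ^ (0:ℝ) * Real.exp (-κ * w)) := by
      filter_upwards [eventually_ge_atTop 0] with w hw
      rw [norm_mul, norm_neg, Complex.norm_exp]
      have e2 : (-z * (w : ℂ)).re = -κ * w := by simp [hz]
      rw [e2, Real.rpow_one, Real.rpow_zero]
      have h1 : ‖(w : ℂ) / z + 1 / z ^ 2‖ ≤ w / ‖z‖ + 1 / ‖z‖ ^ 2 := by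
        refine (norm_add_le _ _).trans ?_
        rw [norm_div, norm_div, norm_one, norm_pow, Complex.norm_real, Real.norm_of_nonneg hw]
      calc _ ≤ (w / ‖z‖ + 1 / ‖z‖ ^ 2) * Real.exp (-κ * w) := by gcongr
        _ = _ := by ring
    have hl : Tendsto (fun w : ℝ => (1 / ‖z‖) * (w ^ (1:ℝ) * Real.exp (-κ * w)) +
        (1 / ‖z‖ ^ 2) * (w ^ (0:ℝ) * Real.exp (-κ * w))) atTop (𝓝 0) := by
      have a1 := (tendsto_rpow_mul_exp_neg_mul_atTop_nhds_zero 1 κ hκ).const_mul (1 / ‖z‖)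
      have a2 := (tendsto_rpow_mul_exp_neg_mul_atTop_nhds_zero 0 κ hκ).const_mul (1 / ‖z‖ ^ 2)
      have := a1.add a2
      simpa using this
    exact squeeze_zero' (Eventually.of_forall fun w => norm_nonneg _) hb hl
  have hfin := integral_Ioi_of_hasDerivAt_of_tendsto' hderiv hint hlim
  rw [hfin]
  simp

theorem fou {κ : ℝ} (hκ : 0 < κ) (ξ : ℝ) :
    𝓕 (fun w => ((rp κ w : ℝ) : ℂ)) ξ = 1 / ((κ : ℂ) + ((2 * Real.pi * ξ : ℝ) : ℂ) * I) ^ 2 := by
  rw [Real.fourier_eq', ← lap hκ]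
  apply integral_congr_ae
  filter_upwards with w
  rw [smul_eq_mul]
  congr 2
  simp only [RCLike.inner_apply, conj_trivial]
  push_cast
  ring

theorem den_norm (κ y : ℝ) : ‖(1 : ℂ) / ((κ : ℂ) + (y : ℂ) * I) ^ 2‖ = 1 / (κ ^ 2 + y ^ 2) := by
  rw [norm_div, norm_one, norm_pow, Complex.sq_norm, Complex.normSq_add_mul_I]

theorem den_ne {κ : ℝ} (hκ : 0 < κ) (y : ℝ) : (κ : ℂ) + (y : ℂ) * I ≠ 0 := by
  intro h
  have := congrArg Complex.re h
  simp at this
  linarith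

theorem den_cont {κ : ℝ} (hκ : 0 < κ) :
    Continuous (fun y : ℝ => (1 : ℂ) / ((κ : ℂ) + (y : ℂ) * I) ^ 2) := by
  refine continuous_const.div (by fun_prop) fun y => pow_ne_zero 2 (den_ne hκ y)

theorem poi_int {κ : ℝ} (hκ : 0 < κ) : Integrable (fun y : ℝ => 1 / (κ ^ 2 + y ^ 2)) ∧
    ∫ y : ℝ, 1 / (κ ^ 2 + y ^ 2) = Real.pi / κ := by
  have e : (fun y : ℝ => 1 / (κ ^ 2 + y ^ 2)) = fun y => (κ ^ 2)⁻¹ * (1 + (κ⁻¹ * y) ^ 2)⁻¹ := by
    funext y
    field_simp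
  constructor
  · rw [e]
    exact (integrable_inv_one_add_sq.comp_mul_left' (inv_ne_zero hκ.ne')).const_mul _
  · rw [e, integral_const_mul, Measure.integral_comp_mul_left (fun y : ℝ => (1 + y ^ 2)⁻¹),
      integral_univ_inv_one_add_sq, inv_inv, abs_of_pos hκ, smul_eq_mul]
    field_simp

theorem den_int {κ : ℝ} (hκ : 0 < κ) :
    Integrable (fun y : ℝ => (1 : ℂ) / ((κ : ℂ) + (y : ℂ) * I) ^ 2) := by
  refine Integrable.mono' (poi_int hκ).1 (den_cont hκ).aestronglyMeasurable ?_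
  filter_upwards with y
  rw [den_norm]

/-- the inversion formula -/
theorem inv2 {κ : ℝ} (hκ : 0 < κ) (w : ℝ) :
    ∫ y : ℝ, cexp (((y * w : ℝ) : ℂ) * I) * (1 / ((κ : ℂ) + (y : ℂ) * I) ^ 2) =
      ((2 * Real.pi * rp κ w : ℝ) : ℂ) := by
  have hF : 𝓕 (fun w => ((rp κ w : ℝ) : ℂ)) =
      fun ξ => 1 / ((κ : ℂ) + ((2 * Real.pi * ξ : ℝ) : ℂ) * I) ^ 2 := by
    funext ξ
    exact fou hκ ξ
  have hint : Integrable (𝓕 (fun w => ((rp κ w : ℝ) : ℂ))) := by
    rw [hF]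
    exact (den_int hκ).comp_mul_left' (R := 2 * Real.pi) (by positivity)
  have h := Continuous.fourierInv_fourier_eq (f := fun w => ((rp κ w : ℝ) : ℂ))
    (by have := rp_cont κ; fun_prop) (rp_int hκ) hint
  have h2 := congrFun h w
  rw [hF, Real.fourierInv_eq'] at h2
  have h3 := Measure.integral_comp_mul_left
    (fun y : ℝ => cexp (((y * w : ℝ) : ℂ) * I) * (1 / ((κ : ℂ) + (y : ℂ) * I) ^ 2)) (2 * Real.pi)
  have h4 : (∫ x : ℝ, cexp (((2 * Real.pi * x * w : ℝ) : ℂ) * I) *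
      (1 / ((κ : ℂ) + ((2 * Real.pi * x : ℝ) : ℂ) * I) ^ 2)) = ((rp κ w : ℝ) : ℂ) := by
    rw [← h2]
    apply integral_congr_ae
    filter_upwards with x
    rw [smul_eq_mul]
    congr 2
    simp only [RCLike.inner_apply, conj_trivial]
    push_cast
    ring
  rw [h4, abs_of_pos (by positivity : (0:ℝ) < (2 * Real.pi)⁻¹)] at h3
  rw [Complex.real_smul] at h3
  push_cast at h3 ⊢
  rw [h3]
  have : (2 * (Real.pi : ℂ)) ≠ 0 := mul_ne_zero two_ne_zero (by exact_mod_cast Real.pi_ne_zero)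
  rw [← mul_assoc, mul_inv_cancel₀ this, one_mul]

end Pool.Agent.D0H15.MW
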