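import Pool.Agent.D0H15.MW.Cut

/-! Package P6 of the project MW: the lower bound. -/

set_option autoImplicit false
open Complex Filter Topology MeasureTheory Set FourierTransform
open Pool.Agent.D0H44.MW

namespace Pool.Agent.D0H15.MW

theorem tail2 (x : ℝ) (hx : 1 ≤ x) (m : ℕ) :
    2 * ((m + 2 : ℕ) : ℝ) ^ 2 * ga (m + 2) x ≤ Real.exp (-(Real.pi * x ^ 2)) * (1 / 1000 * (1 / 2) ^ m) := by
  have h1 : ga (m + 2) x = Real.exp (-(Real.pi * x ^ 2)) *
      Real.exp (-(Real.pi * (((m + 2 : ℕ) : ℝ) ^ 2 - 1) * x ^ 2)) := by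
    unfold ga
    rw [← Real.exp_add]
    congr 1; ring
  have hn2 : (2 : ℝ) ≤ ((m + 2 : ℕ) : ℝ) := by push_cast; linarith [(Nat.cast_nonneg m : (0:ℝ) ≤ m)]
  have h2 : Real.exp (-(Real.pi * (((m + 2 : ℕ) : ℝ) ^ 2 - 1) * x ^ 2)) ≤
      Real.exp (-(9 * (((m + 2 : ℕ) : ℝ) - 1))) := by
    apply Real.exp_le_exp.mpr
    have h3 := Real.pi_gt_three
    have h4 : 3 * (((m + 2 : ℕ) : ℝ) - 1) ≤ ((m + 2 : ℕ) : ℝ) ^ 2 - 1 := by nlinarith
    have h5 : 1 ≤ x ^ 2 := by nlinarith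
    have h6 : 9 * (((m + 2 : ℕ) : ℝ) - 1) ≤ Real.pi * (((m + 2 : ℕ) : ℝ) ^ 2 - 1) := by nlinarith
    have h7 : 0 ≤ Real.pi * (((m + 2 : ℕ) : ℝ) ^ 2 - 1) := by nlinarith
    nlinarith
  have e1 : Real.exp (-(9 * (((m + 2 : ℕ) : ℝ) - 1))) = Real.exp (-9) * Real.exp (-9) ^ m := by
    rw [← Real.exp_nat_mul, ← Real.exp_add]
    congr 1; push_cast; ring
  have e2 : Real.exp (-9) ≤ 1 / 8000 := by
    rw [Real.exp_neg, inv_eq_one_div]
    apply one_div_le_one_div_of_le (by norm_num)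
    have : Real.exp 9 = Real.exp 1 ^ 9 := by rw [← Real.exp_nat_mul]; norm_num
    rw [this]
    have h9 : (2.7182 : ℝ) ≤ Real.exp 1 := by
      have := Real.exp_one_gt_d9
      linarith
    calc (8000 : ℝ) ≤ 2.7182 ^ 9 := by norm_num
      _ ≤ _ := pow_le_pow_left₀ (by norm_num) h9 9
  have e3 : ((m + 2 : ℕ) : ℝ) ^ 2 ≤ 4 * 4 ^ m := by
    have h4 : m + 1 < 2 ^ (m + 1) := Nat.lt_two_pow_self
    have h5 : m + 2 ≤ 2 * 2 ^ m := by
      rw [pow_succ] at h4
      omega
    have h6 : ((m + 2 : ℕ) : ℝ) ≤ 2 * 2 ^ m := by exact_mod_cast h5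
    calc ((m + 2 : ℕ) : ℝ) ^ 2 ≤ (2 * 2 ^ m) ^ 2 := pow_le_pow_left₀ (by positivity) h6 2
      _ = 4 * 4 ^ m := by
        rw [mul_pow, ← pow_mul, mul_comm m 2, pow_mul]
        norm_num
  have e4 : Real.exp (-9) ^ m ≤ (1 / 8) ^ m :=
    pow_le_pow_left₀ (Real.exp_pos _).le (by linarith) m
  rw [h1]
  calc 2 * ((m + 2 : ℕ) : ℝ) ^ 2 * (Real.exp (-(Real.pi * x ^ 2)) *
        Real.exp (-(Real.pi * (((m + 2 : ℕ) : ℝ) ^ 2 - 1) * x ^ 2)))
      ≤ 2 * (4 * 4 ^ m) * (Real.exp (-(Real.pi * x ^ 2)) * (1 / 8000 * (1 / 8) ^ m)) := by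
        gcongr
        exact h2.trans (by rw [e1]; gcongr)
    _ = Real.exp (-(Real.pi * x ^ 2)) * (1 / 1000 * (4 * (1 / 8)) ^ m) := by
        rw [mul_pow]; ring
    _ = _ := by norm_num

theorem first2 {a : ℕ → ℂ} (h0 : a 0 = 0) (h1 : a 1 = 1) (h : ∀ n : ℕ, ‖a n‖ ≤ 2 * (n : ℝ) ^ 2)
    (x : ℝ) (hx : 1 ≤ x) :
    1 / 2 * Real.exp (-(Real.pi * x ^ 2)) ≤ (TS a x).re := by
  have hPG : PG a 2 2 := ⟨h0, h⟩
  have hs := TS_summable hPG x (by linarith)
  have h2 := hs.sum_add_tsum_nat_add 2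
  have h3 : ∑ i ∈ Finset.range 2, a i * (ga i x : ℂ) = (Real.exp (-(Real.pi * x ^ 2)) : ℂ) := by
    rw [Finset.sum_range_succ, Finset.sum_range_one, h0, zero_mul, zero_add, h1, one_mul]
    unfold ga
    norm_num
  rw [h3] at h2
  have hg : HasSum (fun i : ℕ => Real.exp (-(Real.pi * x ^ 2)) * (1 / 1000) * (1 / 2 : ℝ) ^ i)
      (Real.exp (-(Real.pi * x ^ 2)) * (1 / 1000) * 2) := by
    apply HasSum.mul_left
    exact hasSum_geometric_two
  have h4 := tsum_of_norm_bounded (f := fun i : ℕ => a (i + 2) * (ga (i + 2) x : ℂ)) hg (fun i => by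
    rw [norm_mul, Complex.norm_real, Real.norm_of_nonneg (ga_pos _ x).le]
    refine (mul_le_mul_of_nonneg_right (h (i + 2)) (ga_pos _ x).le).trans ?_
    refine (tail2 x hx i).trans (le_of_eq ?_)
    ring)
  have h5 : TS a x = (Real.exp (-(Real.pi * x ^ 2)) : ℂ) + ∑' i : ℕ, a (i + 2) * (ga (i + 2) x : ℂ) := by
    unfold TS
    rw [← h2]
  rw [h5, add_re]
  have h6 : ((Real.exp (-(Real.pi * x ^ 2)) : ℂ)).re = Real.exp (-(Real.pi * x ^ 2)) := by
    exact ofReal_re _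
  rw [h6]
  have h7 := (abs_le.mp (abs_re_le_norm (∑' i : ℕ, a (i + 2) * (ga (i + 2) x : ℂ)))).1
  have := Real.exp_pos (-(Real.pi * x ^ 2))
  linarith

/-- the constant integrand -/
noncomputable def ci (v : ℝ) : ℝ := rp 1 (-v) * Real.exp (-(Real.pi * Real.exp (-v) ^ 2))

theorem ci_cont : Continuous ci := by
  unfold ci
  have := rp_cont 1
  fun_prop

theorem ci_nonneg (v : ℝ) : 0 ≤ ci v := mul_nonneg (rp_nonneg _ _) (Real.exp_pos _).le

theorem rpn_int : Integrable (fun v => rp 1 (-v)) := by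
  have h := (rp_int one_pos).re
  simp only [RCLike.re_to_complex, ofReal_re] at h
  exact h.comp_neg

theorem ci_int : Integrable ci := by
  refine Integrable.mono' rpn_int ci_cont.aestronglyMeasurable ?_
  filter_upwards with v
  rw [Real.norm_of_nonneg (ci_nonneg v)]
  unfold ci
  apply mul_le_of_le_one_right (rp_nonneg _ _)
  apply Real.exp_le_one_iff.mpr
  have : 0 ≤ Real.pi * Real.exp (-v) ^ 2 := by positivity
  linarith

theorem ci_pos : 0 < ∫ v, ci v := by
  rw [integral_pos_iff_support_of_nonneg ci_nonneg ci_int]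
  refine (ci_cont.isOpen_support).measure_pos volume ⟨-1, ?_⟩
  rw [Function.mem_support]
  unfold ci rp
  have : max (- -(1:ℝ)) 0 = 1 := by norm_num
  rw [this]
  positivity

theorem lb : S_LB := by
  refine ⟨Real.pi * ∫ v, ci v, mul_pos Real.pi_pos ci_pos, ?_⟩
  intro κ a hκ hκ4 ha0 ha1 ha hMC
  have hpi := Real.pi_pos
  have hg := gg_int hMC
  have hgc := gg_cont hMC
  set g : ℝ → ℂ := gg (TS a) (1 / 2 + κ) with hgdef
  set w : ℝ → ℂ := fun t => 1 / (((1 : ℝ) : ℂ) + (t : ℂ) * I) ^ 2 with hw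
  have hwi : Integrable w := den_int one_pos
  have hwc : Continuous w := den_cont one_pos
  have hwn : ∀ t, ‖w t‖ = 1 / (1 + t ^ 2) := by
    intro t
    rw [hw]
    simp only
    rw [den_norm, one_pow]
  have hJ1 : ‖∫ t : ℝ, w t * mellin (TS a) (((1 / 2 + κ : ℝ) : ℂ) + (t : ℂ) * I)‖ ≤
      ∫ t : ℝ, ‖mellin (TS a) (((1 / 2 + κ : ℝ) : ℂ) + (t : ℂ) * I)‖ / (1 + t ^ 2) := by
    refine (norm_integral_le_integral_norm _).trans (le_of_eq ?_)
    apply integral_congr_ae
    filter_upwards with t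
    rw [norm_mul, hwn, mul_comm, mul_one_div]
  refine le_trans ?_ hJ1
  have hJ2 : ∫ t : ℝ, w t * mellin (TS a) (((1 / 2 + κ : ℝ) : ℂ) + (t : ℂ) * I) =
      ∫ v : ℝ, g v * ((2 * Real.pi * rp 1 (-v) : ℝ) : ℂ) := by
    simp_rw [mell_int, ← integral_const_mul]
    rw [integral_integral_swap]
    · apply integral_congr_ae
      filter_upwards with v
      rw [← inv2 one_pos, ← integral_const_mul]
      apply integral_congr_ae
      filter_upwards with t
      rw [hw]
      simp only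
      have : cexp (-((t * v : ℝ) : ℂ) * I) = cexp (((t * -v : ℝ) : ℂ) * I) := by
        congr 1
        push_cast
        ring
      rw [this]
      ring
    · have h := hwi.mul_prod hg
      refine Integrable.mono h ?_ ?_
      · apply Continuous.aestronglyMeasurable
        unfold Function.uncurry
        rw [← hgdef]
        fun_prop
      · filter_upwards with p
        unfold Function.uncurry
        rw [norm_mul, norm_mul, norm_mul, ← ofReal_neg, Complex.norm_exp_ofReal_mul_I, one_mul]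
  rw [hJ2]
  refine le_trans ?_ (re_le_norm _)
  have hri : Integrable (fun v : ℝ => g v * ((2 * Real.pi * rp 1 (-v) : ℝ) : ℂ)) := by
    refine hg.mul_bdd (c := 2 * Real.pi * 2) ?_ ?_
    · apply Continuous.aestronglyMeasurable
      have := rp_cont 1
      fun_prop
    · filter_upwards with v
      rw [Complex.norm_real, Real.norm_of_nonneg (mul_nonneg (by positivity) (rp_nonneg _ _))]
      have h1 := rp_le one_pos (-v)
      have h2 : Real.exp (-(1 / 2) * |-v|) ≤ 1 := by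
        apply Real.exp_le_one_iff.mpr
        have := abs_nonneg (-v)
        linarith
      have h3 : rp 1 (-v) ≤ 2 := by
        rw [div_one] at h1
        linarith
      gcongr
  have hre : (∫ v : ℝ, g v * ((2 * Real.pi * rp 1 (-v) : ℝ) : ℂ)).re =
      ∫ v : ℝ, (g v * ((2 * Real.pi * rp 1 (-v) : ℝ) : ℂ)).re := by
    have := integral_re hri
    simp only [RCLike.re_to_complex] at this
    exact this.symm
  rw [hre, ← integral_const_mul]
  refine integral_mono (ci_int.const_mul _) hri.re ?_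
  intro v
  simp only
  rw [re_mul_ofReal]
  rcases le_or_gt 0 v with hv | hv
  · have : rp 1 (-v) = 0 := by
      unfold rp
      rw [max_eq_right (by linarith), zero_mul]
    unfold ci
    rw [this]
    simp
  · have h1 : 1 ≤ Real.exp (-v) := Real.one_le_exp (by linarith)
    have h2 := first2 ha0 ha1 ha (Real.exp (-v)) h1
    have h3 : (g v).re = Real.exp (-(1 / 2 + κ) * v) * (TS a (Real.exp (-v))).re := by
      rw [hgdef]
      unfold gg
      rw [re_ofReal_mul]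
    have h4 : 1 ≤ Real.exp (-(1 / 2 + κ) * v) := Real.one_le_exp (by nlinarith)
    have h5 : 1 / 2 * Real.exp (-(Real.pi * Real.exp (-v) ^ 2)) ≤ (g v).re := by
      rw [h3]
      have h6 : 0 < Real.exp (-(Real.pi * Real.exp (-v) ^ 2)) := Real.exp_pos _
      nlinarith
    have h7 := rp_nonneg 1 (-v)
    unfold ci
    calc Real.pi * (rp 1 (-v) * Real.exp (-(Real.pi * Real.exp (-v) ^ 2)))
        = (1 / 2 * Real.exp (-(Real.pi * Real.exp (-v) ^ 2))) * (2 * Real.pi * rp 1 (-v)) := by ring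
      _ ≤ _ := by gcongr

end Pool.Agent.D0H15.MW
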